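import Pool.Agent.Q255.VA.Upper

/-!
# Ambiguity of intersections of boundedly-ambiguous VASS languages

For all positive `k₁`, `k₂` there are a `k₁`-ambiguous VASS language and a `k₂`-ambiguous VASS
language whose intersection is not recognised by any `n`-ambiguous VASS with `n < k₁ k₂`.
-/

namespace Pool.Agent.Results.MP_bb7684_lc.Multiplicative

open Pool.Agent.Q255.VA

/-- The letters `a_j` (`c = true`) and `b_j` (`c = false`). -/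
def ltr (K : ℕ) (hK : 0 < K) (c : Bool) (j : ℕ) : Fin K × Bool := (⟨j % K, Nat.mod_lt _ hK⟩, c)

theorem good (K : ℕ) (hK : 0 < K) : Good (ltr K hK true) (ltr K hK false) K := by
  refine ⟨fun i hi j hj h => ?_, fun i hi j hj h => ?_, fun i j h => ?_⟩
  · have h1 : i % K = j % K := congrArg (fun x : Fin K × Bool => (x.1 : ℕ)) h
    rwa [Nat.mod_eq_of_lt hi, Nat.mod_eq_of_lt hj] at h1
  · have h1 : i % K = j % K := congrArg (fun x : Fin K × Bool => (x.1 : ℕ)) h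
    rwa [Nat.mod_eq_of_lt hi, Nat.mod_eq_of_lt hj] at h1
  · exact absurd (congrArg Prod.snd h) (by simp [ltr])

theorem result (k₁ k₂ : ℕ) (h₁ : 1 ≤ k₁) (h₂ : 1 ≤ k₂) :
    ∃ (σ : Type) (_ : Finite σ) (L₁ L₂ : Set (List σ)),
      (∃ V : VASS σ, V.Ambig k₁ ∧ V.Lang = L₁) ∧ (∃ V : VASS σ, V.Ambig k₂ ∧ V.Lang = L₂) ∧
      ∀ n, 1 ≤ n → n ≤ k₁ * k₂ - 1 → ¬ ∃ V : VASS σ, V.Ambig n ∧ V.Lang = L₁ ∩ L₂ := by
  have hK : 0 < k₁ + k₂ := by omega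
  have hg := good (k₁ + k₂) hK
  refine ⟨Fin (k₁ + k₂) × Bool, inferInstance,
    (U (ltr _ hK true) (ltr _ hK false) k₁ fun j => j).Lang,
    (U (ltr _ hK true) (ltr _ hK false) k₂ fun j => k₁ + j).Lang,
    ⟨_, U_ambig _ _ _ _ h₁, rfl⟩, ⟨_, U_ambig _ _ _ _ h₂, rfl⟩, ?_⟩
  rintro n - hn ⟨V, hV, hL⟩
  have hpos : 0 < k₁ * k₂ := Nat.mul_pos h₁ h₂
  refine VASS.lower (ltr _ hK true) (ltr _ hK false) k₁ k₂ _ V hL ?_ ?_ n (by omega) hV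
  · intro N M i₁ hi₁ i₂ hi₂ hm₁ hm₂
    exact ⟨mem_lang_of _ _ _ _ hi₁ _ (NP_W hg N M (by omega) hm₁ _ le_rfl),
      mem_lang_of _ _ _ _ hi₂ _ (NP_W hg N M (by omega) hm₂ _ le_rfl)⟩
  · rintro N M ⟨hw₁, hw₂⟩
    obtain ⟨j₁, hj₁, hs₁⟩ := sum_of_mem_lang _ _ _ _ h₁ hw₁
    obtain ⟨j₂, hj₂, hs₂⟩ := sum_of_mem_lang _ _ _ _ h₂ hw₂
    rw [wt_W hg N M (by omega) _ le_rfl, if_pos (by omega)] at hs₁ hs₂
    exact ⟨⟨j₁, hj₁, by omega⟩, ⟨j₂, hj₂, by omega⟩⟩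

end Pool.Agent.Results.MP_bb7684_lc.Multiplicative
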